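import Pool.Agent.H39.Newt.Stmts

/-! # Project NEWTON: module EXT

Every weight is a nonnegative rational combination of rigid weights and of unit vectors of variables
which do not occur on its face. -/

set_option autoImplicit false

namespace Pool.Newt

open MvPolynomial Pool.Agent.H39.MonoR Pool.Agent.H75.Mono

section EXT

/-- the constraint that becomes tight first -/
theorem EXT_tight {K : Type} [Fintype K] (num den : K → ℤ) (h0 : ∀ k, 0 ≤ num k)
    (h1 : ∀ k, 0 < den k → 0 < num k) (h2 : ∃ k, 0 < den k) :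
    ∃ k0, 0 < den k0 ∧ 0 < num k0 ∧ ∀ k, 0 ≤ den k0 * num k - num k0 * den k := by
  classical
  obtain ⟨k1, hk1⟩ := h2
  have hne : (Finset.univ.filter fun k => 0 < den k).Nonempty :=
    ⟨k1, Finset.mem_filter.2 ⟨Finset.mem_univ _, hk1⟩⟩
  obtain ⟨k0, hk0, hmin⟩ := Finset.exists_min_image _ (fun k => (num k : ℚ) / (den k : ℚ)) hne
  rw [Finset.mem_filter] at hk0
  refine ⟨k0, hk0.2, h1 k0 hk0.2, fun k => ?_⟩
  by_cases hk : 0 < den k
  · have h3 := hmin k (Finset.mem_filter.2 ⟨Finset.mem_univ _, hk⟩)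
    have hd0 : (0 : ℚ) < den k0 := by exact_mod_cast hk0.2
    have hd : (0 : ℚ) < den k := by exact_mod_cast hk
    rw [div_le_div_iff₀ hd0 hd] at h3
    have h4 : num k0 * den k ≤ num k * den k0 := by exact_mod_cast h3
    linarith [mul_comm (num k) (den k0)]
  · have h3 : 0 ≤ den k0 * num k := mul_nonneg hk0.2.le (h0 k)
    have h4 : num k0 * den k ≤ 0 := mul_nonpos_of_nonneg_of_nonpos (h0 k0) (not_lt.1 hk)
    linarith

variable {σ I : Type} [Fintype σ] [Fintype I]

/-- the generators: rigid weights -/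
def EXT_A (a : I → σ → ℕ) (S : Set I) : Set (σ → ℕ) :=
  {w | Rigid a w ∧ 0 < Nw a w ∧ S ⊆ face a w}

/-- the free directions -/
def EXT_B (a : I → σ → ℕ) (S : Set I) : AddSubmonoid (σ → ℕ) where
  carrier := {p | ∀ j, p j ≠ 0 → ∀ i ∈ S, a i j = 0}
  zero_mem' := fun j hj => absurd rfl hj
  add_mem' := by
    intro x y hx hy j hj i hi
    by_cases h : x j = 0
    · exact hy j (fun h' => hj (by simp [h, h'])) i hi
    · exact hx j h i hi

/-- the cone -/
def EXT_C (a : I → σ → ℕ) (S : Set I) : AddSubmonoid (σ → ℕ) :=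
  AddSubmonoid.closure (EXT_A a S) ⊔ EXT_B a S

omit [Fintype I] in
theorem EXT_C_mono (a : I → σ → ℕ) {S S' : Set I} (h : S ⊆ S') : EXT_C a S' ≤ EXT_C a S := by
  refine sup_le_sup (AddSubmonoid.closure_mono ?_) ?_
  · exact fun w hw => ⟨hw.1, hw.2.1, h.trans hw.2.2⟩
  · exact fun p hp j hj i hi => hp j hj i (h hi)

omit [Fintype I] in
theorem EXT_extract (a : I → σ → ℕ) (S : Set I) {x : σ → ℕ} (hx : x ∈ EXT_C a S) :
    ∃ (r : ℕ) (w : Fin r → σ → ℕ) (m : Fin r → ℕ) (p : σ → ℕ),
      (∀ s, Rigid a (w s) ∧ 0 < Nw a (w s) ∧ S ⊆ face a (w s)) ∧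
      (∀ j, p j ≠ 0 → ∀ i ∈ S, a i j = 0) ∧ ∀ j, x j = (∑ s, m s * w s j) + p j := by
  obtain ⟨y, hy, p, hp, rfl⟩ := AddSubmonoid.mem_sup.1 hx
  obtain ⟨l, hl, rfl⟩ := AddSubmonoid.exists_list_of_mem_closure hy
  refine ⟨l.length, fun s => l.get s, fun _ => 1, p, fun s => hl _ (List.get_mem l s), hp, ?_⟩
  intro j
  have h1 : l.sum j = ∑ s : Fin l.length, l.get s j := by
    rw [← Fin.sum_univ_getElem l, Finset.sum_apply]
    rfl
  simp only [Pi.add_apply, one_mul]
  rw [h1]

/-- one step in the direction `-v` -/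
theorem EXT_step [Nonempty I] (a : I → σ → ℕ) (u : σ → ℕ) (v : σ → ℤ)
    (hs : ∀ j, v j ≠ 0 → u j ≠ 0) (hv : ∀ i ∈ face a u, ∑ l, v l * (a i l : ℤ) = 0)
    (hp : ∃ j, 0 < v j) :
    ∃ (D T : ℕ) (u' : σ → ℕ), 0 < D ∧ 0 < T ∧ (∀ j, (D : ℤ) * u j = u' j + T * v j) ∧
      face a u ⊆ face a u' ∧ (∀ j, u' j ≠ 0 → u j ≠ 0) ∧
      ((∃ j, u j ≠ 0 ∧ u' j = 0) ∨ ∃ i, i ∉ face a u ∧ i ∈ face a u') := by
  classical
  set num : σ ⊕ I → ℤ := Sum.elim (fun j => (u j : ℤ)) (fun i => (dot u (a i) : ℤ) - Nw a u)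
    with hnum
  set den : σ ⊕ I → ℤ := Sum.elim v (fun i => ∑ l, v l * (a i l : ℤ)) with hden
  have h0 : ∀ k, 0 ≤ num k := by
    rintro (j | i)
    · simp [hnum]
    · simp only [hnum, Sum.elim_inr]
      have := Nw_le a u i
      omega
  have h1 : ∀ k, 0 < den k → 0 < num k := by
    rintro (j | i) h
    · simp only [hden, hnum, Sum.elim_inl] at h ⊢
      have := hs j h.ne'
      omega
    · simp only [hden, hnum, Sum.elim_inr] at h ⊢
      have hi : i ∉ face a u := fun hi => by
        rw [hv i hi] at h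
        exact lt_irrefl _ h
      have := lt_of_not_mem_face hi
      omega
  obtain ⟨j1, hj1⟩ := hp
  obtain ⟨k0, hd0, hn0, hk⟩ := EXT_tight num den h0 h1 ⟨Sum.inl j1, by simpa [hden] using hj1⟩
  obtain ⟨D, hD⟩ := Int.eq_ofNat_of_zero_le hd0.le
  obtain ⟨T, hT⟩ := Int.eq_ofNat_of_zero_le hn0.le
  have hx : ∀ j, ∃ x : ℕ, (D : ℤ) * u j - T * v j = x := by
    intro j
    have h3 := hk (Sum.inl j)
    rw [hD, hT] at h3
    exact Int.eq_ofNat_of_zero_le h3
  choose u' hu' using hx
  have hdot : ∀ i, (dot u' (a i) : ℤ) = D * dot u (a i) - T * ∑ l, v l * (a i l : ℤ) := by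
    intro i
    unfold dot
    push_cast
    simp only [← hu']
    rw [Finset.mul_sum, Finset.mul_sum, ← Finset.sum_sub_distrib]
    exact Finset.sum_congr rfl fun l _ => by ring
  have hge : ∀ i, (D : ℤ) * Nw a u ≤ dot u' (a i) := by
    intro i
    have h3 := hk (Sum.inr i)
    rw [hD, hT] at h3
    simp only [hnum, hden, Sum.elim_inr] at h3
    rw [hdot]
    linarith
  have hface : ∀ i, (dot u' (a i) : ℤ) = D * Nw a u → i ∈ face a u' := by
    intro i hi i'
    have := hge i'
    rw [← hi] at this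
    exact_mod_cast this
  refine ⟨D, T, u', ?_, ?_, ?_, ?_, ?_, ?_⟩
  · rw [hD] at hd0
    exact_mod_cast hd0
  · rw [hT] at hn0
    exact_mod_cast hn0
  · intro j
    linarith [hu' j]
  · intro i hi
    apply hface
    rw [hdot, hv i hi, Nw_eq hi, mul_zero, sub_zero]
  · intro j hj hu0
    have h3 : v j = 0 := by
      by_contra h
      exact hs j h hu0
    have := hu' j
    rw [hu0, h3] at this
    simp at this
    omega
  · have h3 : den k0 * num k0 - num k0 * den k0 = 0 := by ring
    rcases k0 with j | i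
    · left
      refine ⟨j, ?_, ?_⟩
      · simp only [hnum, Sum.elim_inl] at hn0
        omega
      · have h4 := hu' j
        simp only [hnum, hden, Sum.elim_inl] at hD hT
        have h5 : ((D : ℤ) * u j - T * v j) = 0 := by
          rw [← hT, hD]
          ring
        rw [h5] at h4
        exact_mod_cast h4.symm
    · right
      refine ⟨i, ?_, ?_⟩
      · intro hi
        simp only [hden, Sum.elim_inr] at hd0
        rw [hv i hi] at hd0
        exact lt_irrefl _ hd0
      · apply hface
        rw [hdot]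
        simp only [hnum, hden, Sum.elim_inr] at hD hT
        rw [hD, ← hT]
        ring

open Classical in
/-- the measure of the induction -/
noncomputable def EXT_mu (a : I → σ → ℕ) (u : σ → ℕ) : ℕ :=
  (Finset.univ.filter fun j => u j ≠ 0).card + (Finset.univ.filter fun i => i ∉ face a u).card

theorem EXT_mu_lt (a : I → σ → ℕ) {u u' : σ → ℕ} (h1 : face a u ⊆ face a u')
    (h2 : ∀ j, u' j ≠ 0 → u j ≠ 0)
    (h3 : (∃ j, u j ≠ 0 ∧ u' j = 0) ∨ ∃ i, i ∉ face a u ∧ i ∈ face a u') :
    EXT_mu a u' < EXT_mu a u := by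
  classical
  unfold EXT_mu
  have hA : (Finset.univ.filter fun j => u' j ≠ 0) ⊆ (Finset.univ.filter fun j => u j ≠ 0) := by
    intro j hj
    rw [Finset.mem_filter] at hj ⊢
    exact ⟨hj.1, h2 j hj.2⟩
  have hB : (Finset.univ.filter fun i => i ∉ face a u') ⊆
      (Finset.univ.filter fun i => i ∉ face a u) := by
    intro j hj
    rw [Finset.mem_filter] at hj ⊢
    exact ⟨hj.1, fun h => hj.2 (h1 h)⟩
  rcases h3 with ⟨j, hj, hj'⟩ | ⟨i, hi, hi'⟩
  · refine add_lt_add_of_lt_of_le (Finset.card_lt_card ?_) (Finset.card_le_card hB)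
    refine Finset.ssubset_iff_subset_ne.2 ⟨hA, fun h => ?_⟩
    have : j ∈ Finset.univ.filter fun j => u j ≠ 0 := Finset.mem_filter.2 ⟨Finset.mem_univ _, hj⟩
    rw [← h, Finset.mem_filter] at this
    exact this.2 hj'
  · refine add_lt_add_of_le_of_lt (Finset.card_le_card hA) (Finset.card_lt_card ?_)
    refine Finset.ssubset_iff_subset_ne.2 ⟨hB, fun h => ?_⟩
    have : i ∈ Finset.univ.filter fun i => i ∉ face a u :=
      Finset.mem_filter.2 ⟨Finset.mem_univ _, hi⟩
    rw [← h, Finset.mem_filter] at this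
    exact this.2 hi'

omit [Fintype I] in
/-- an integral relation for a weight which is not rigid -/
theorem EXT_rel (a : I → σ → ℕ) (u : σ → ℕ) (h : ¬ Rigid a u) :
    ∃ v : σ → ℤ, v ≠ 0 ∧ (∀ j, v j ≠ 0 → u j ≠ 0) ∧
      ∀ i ∈ face a u, ∑ l, v l * (a i l : ℤ) = 0 := by
  classical
  unfold Rigid at h
  rw [← LinearIndependent.iff_fractionRing ℤ ℚ, Fintype.not_linearIndependent_iff] at h
  obtain ⟨g, hg, l0, hl0⟩ := h
  refine ⟨fun l => if hl : u l ≠ 0 then g ⟨l, hl⟩ else 0, ?_, ?_, ?_⟩
  · intro h0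
    have h1 := congrFun h0 l0.1
    simp only [Pi.zero_apply] at h1
    rw [dif_pos l0.2] at h1
    exact hl0 h1
  · intro j hj h0
    simp [h0] at hj
  · intro i hi
    have h1 := congrFun hg ⟨i, hi⟩
    simp only [Finset.sum_apply, Pi.smul_apply, Pi.zero_apply] at h1
    have h2 : ∑ l : {l // u l ≠ 0}, g l * (a i l : ℤ) = 0 := by
      have : ((∑ l : {l // u l ≠ 0}, g l * (a i l : ℤ) : ℤ) : ℚ) = 0 := by
        push_cast
        rw [← h1]
        exact Finset.sum_congr rfl fun l _ => by rw [zsmul_eq_mul]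
      exact_mod_cast this
    calc ∑ l, (fun l => if hl : u l ≠ 0 then g ⟨l, hl⟩ else 0) l * (a i l : ℤ)
        = ∑ l ∈ Finset.univ.filter (fun l => u l ≠ 0),
            (if hl : u l ≠ 0 then g ⟨l, hl⟩ else 0) * (a i l : ℤ) := by
          symm
          apply Finset.sum_filter_of_ne
          intro l _ hl h0
          exact hl (by simp [h0])
      _ = ∑ l : {l // u l ≠ 0},
            (if hl : u l ≠ 0 then g ⟨l, hl⟩ else 0) * (a i l : ℤ) :=
          Finset.sum_subtype _ (fun l => by simp) _
      _ = ∑ l : {l // u l ≠ 0}, g l * (a i l : ℤ) :=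
          Finset.sum_congr rfl fun l _ => by rw [dif_pos l.2]
      _ = 0 := h2

omit [Fintype I] in
/-- a nonnegative combination of two weights with a decomposition has a decomposition -/
theorem EXT_comb (a : I → σ → ℕ) (S : Set I) {x y z : σ → ℕ} {D1 D2 E α β : ℕ} (hD1 : 0 < D1)
    (hD2 : 0 < D2) (hE : 0 < E) (hx : D1 • x ∈ EXT_C a S) (hy : D2 • y ∈ EXT_C a S)
    (h : E • z = α • x + β • y) : ∃ D, 0 < D ∧ D • z ∈ EXT_C a S := by
  refine ⟨E * D1 * D2, by positivity, ?_⟩
  have h1 : (E * D1 * D2) • z = (α * D2) • (D1 • x) + (β * D1) • (D2 • y) := by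
    have : (E * D1 * D2) • z = (D1 * D2) • (E • z) := by
      rw [smul_smul]
      congr 1
      ring
    rw [this, h, smul_add, smul_smul, smul_smul, smul_smul, smul_smul]
    congr 2 <;> ring
  rw [h1]
  exact add_mem (AddSubmonoid.nsmul_mem _ hx _) (AddSubmonoid.nsmul_mem _ hy _)

theorem EXT_main [Nonempty I] (a : I → σ → ℕ) : ∀ (n : ℕ) (u : σ → ℕ), EXT_mu a u ≤ n →
    ∃ D, 0 < D ∧ D • u ∈ EXT_C a (face a u) := by
  intro n
  induction n with
  | zero =>
    intro u hu
    refine ⟨1, one_pos, ?_⟩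
    have hu0 : u = 0 := by
      classical
      unfold EXT_mu at hu
      have h1 : (Finset.univ.filter fun j => u j ≠ 0).card = 0 := by omega
      rw [Finset.card_eq_zero, Finset.filter_eq_empty_iff] at h1
      funext j
      simpa using h1 (Finset.mem_univ j)
    rw [hu0, smul_zero]
    exact zero_mem _
  | succ n ih =>
    intro u hu
    rcases Nat.eq_zero_or_pos (Nw a u) with hN | hN
    · refine ⟨1, one_pos, ?_⟩
      rw [one_smul]
      refine (le_sup_right : EXT_B a (face a u) ≤ EXT_C a (face a u)) ?_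
      intro j hj i hi
      have h1 := Nw_eq hi
      rw [hN] at h1
      have h2 := (Finset.sum_eq_zero_iff.1 h1.symm) j (Finset.mem_univ j)
      exact (mul_eq_zero.1 h2).resolve_left hj
    · by_cases hR : Rigid a u
      · refine ⟨1, one_pos, ?_⟩
        rw [one_smul]
        refine (le_sup_left : AddSubmonoid.closure (EXT_A a (face a u)) ≤ EXT_C a (face a u)) ?_
        exact AddSubmonoid.subset_closure ⟨hR, hN, subset_rfl⟩
      · obtain ⟨v, hv0, hv1, hv2⟩ := EXT_rel a u hR
        -- one direction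
        have key : ∀ v : σ → ℤ, (∀ j, v j ≠ 0 → u j ≠ 0) →
            (∀ i ∈ face a u, ∑ l, v l * (a i l : ℤ) = 0) → (∃ j, 0 < v j) →
            ∃ (D T D' : ℕ) (u' : σ → ℕ), 0 < D ∧ 0 < T ∧ 0 < D' ∧
              (∀ j, (D : ℤ) * u j = u' j + T * v j) ∧ D' • u' ∈ EXT_C a (face a u) := by
          intro v h1 h2 h3
          obtain ⟨D, T, u', hD, hT, e, hf, hs, hlt⟩ := EXT_step a u v h1 h2 h3
          have hlt' := EXT_mu_lt a hf hs hlt
          obtain ⟨D', hD', hm⟩ := ih u' (by omega)
          exact ⟨D, T, D', u', hD, hT, hD', e, EXT_C_mono a hf hm⟩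
        by_cases hp : ∃ j, 0 < v j
        · obtain ⟨D, T, D', u', hD, hT, hD', e, hm⟩ := key v hv1 hv2 hp
          by_cases hn : ∃ j, v j < 0
          · obtain ⟨D₂, T₂, D₂', u₂, hD₂, hT₂, hD₂', e₂, hm₂⟩ := key (-v)
              (fun j hj => hv1 j (by simpa using hj))
              (fun i hi => by simpa using hv2 i hi)
              (by obtain ⟨j, hj⟩ := hn; exact ⟨j, by simpa using hj⟩)
            refine EXT_comb a _ (E := T₂ * D + T * D₂) (α := T₂) (β := T) hD' hD₂'
              (by positivity) hm hm₂ ?_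
            funext j
            have h1 := e j
            have h2 := e₂ j
            simp only [Pi.neg_apply] at h2
            simp only [Pi.smul_apply, Pi.add_apply, smul_eq_mul]
            zify
            linear_combination (T₂ : ℤ) * h1 + (T : ℤ) * h2
          · push Not at hn
            -- v is a free direction
            obtain ⟨w, hw⟩ : ∃ w : σ → ℕ, ∀ j, v j = w j :=
              ⟨fun j => (v j).toNat, fun j => (Int.toNat_of_nonneg (hn j)).symm⟩
            have hB : (1 : ℕ) • w ∈ EXT_C a (face a u) := by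
              rw [one_smul]
              refine (le_sup_right : EXT_B a (face a u) ≤ EXT_C a (face a u)) ?_
              intro j hj i hi
              have h1 := hv2 i hi
              simp only [hw] at h1
              have h2 : ∑ l, w l * a i l = 0 := by exact_mod_cast h1
              exact (mul_eq_zero.1 (Finset.sum_eq_zero_iff.1 h2 j (Finset.mem_univ j))).resolve_left
                hj
            refine EXT_comb a _ (E := D) (α := 1) (β := T) hD' one_pos hD hm hB ?_
            funext j
            have h1 := e j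
            rw [hw] at h1
            simp only [Pi.smul_apply, Pi.add_apply, smul_eq_mul, one_mul]
            exact_mod_cast h1
        · push Not at hp
          -- -v is a free direction
          have hq : ∃ j, v j < 0 := by
            by_contra h
            push Not at h
            exact hv0 (funext fun j => le_antisymm (hp j) (h j))
          obtain ⟨D, T, D', u', hD, hT, hD', e, hm⟩ := key (-v)
            (fun j hj => hv1 j (by simpa using hj))
            (fun i hi => by simpa using hv2 i hi)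
            (by obtain ⟨j, hj⟩ := hq; exact ⟨j, by simpa using hj⟩)
          obtain ⟨w, hw⟩ : ∃ w : σ → ℕ, ∀ j, -v j = w j :=
            ⟨fun j => (-v j).toNat, fun j => (Int.toNat_of_nonneg (by have := hp j; omega)).symm⟩
          have hB : (1 : ℕ) • w ∈ EXT_C a (face a u) := by
            rw [one_smul]
            refine (le_sup_right : EXT_B a (face a u) ≤ EXT_C a (face a u)) ?_
            intro j hj i hi
            have h1 : ∑ l, (w l : ℤ) * (a i l : ℤ) = 0 := by
              simp only [← hw, neg_mul, Finset.sum_neg_distrib, neg_eq_zero]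
              exact hv2 i hi
            have h2 : ∑ l, w l * a i l = 0 := by exact_mod_cast h1
            exact (mul_eq_zero.1 (Finset.sum_eq_zero_iff.1 h2 j (Finset.mem_univ j))).resolve_left
              hj
          refine EXT_comb a _ (E := D) (α := 1) (β := T) hD' one_pos hD hm hB ?_
          funext j
          have h1 := e j
          simp only [Pi.neg_apply] at h1
          rw [hw] at h1
          simp only [Pi.smul_apply, Pi.add_apply, smul_eq_mul, one_mul]
          exact_mod_cast h1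

end EXT

theorem sExt : SExt := by
  intro σ I _ _ _ a u
  obtain ⟨D, hD, h⟩ := EXT_main a _ u le_rfl
  obtain ⟨r, w, m, p, h1, h2, h3⟩ := EXT_extract a _ h
  exact ⟨D, r, w, m, p, hD, h1, h2, fun j => by simpa using h3 j⟩

end Pool.Newt
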